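import Mathlib
import Pool.Agent.W136.RF.As

/-! Almost everywhere convergence of logarithmic means from a second moment bound (TASK F of helper4) -/

set_option autoImplicit false

namespace Pool.Agent.L5helper67.MLF

open Finset Filter MeasureTheory

theorem ae_of_second (F : ℕ → ℝ → ℝ) (hm : ∀ n, Measurable (F n)) (h1 : ∀ n t, |F n t| ≤ 1) (u v C : ℝ) (X₀ : ℕ)
    (h : ∀ X : ℕ, X₀ ≤ X → ∫ t in Set.Icc u v, (∑ n ∈ Icc 1 X, F n t / n) ^ 2 ≤
      C * Real.log X ^ 2 / Real.log X ^ (1 / 8 : ℝ)) :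
    ∀ᵐ t ∂(volume.restrict (Set.Icc u v)),
      Tendsto (fun X : ℕ => (∑ n ∈ Icc 1 X, F n t / n) / Real.log X) atTop (nhds 0) := by
  have hSm : ∀ X : ℕ, Measurable (fun t => ∑ n ∈ Icc 1 X, F n t / n) := by
    intro X
    apply Finset.measurable_fun_sum
    intro n _
    exact (hm n).div_const _
  have hWm : ∀ X : ℕ, Measurable (fun t => (∑ n ∈ Icc 1 X, F n t / n) / Real.log X) := by
    intro X
    exact (hSm X).div_const _
  have key : ∀ D a : ℕ, ∀ᵐ t ∂(volume.restrict (Set.Icc u v)), 1 ≤ D → Tendsto (fun b : ℕ =>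
      (∑ n ∈ Icc 1 (2 ^ ((D + a) * 2 ^ b)), F n t / n) /
        Real.log ((2 ^ ((D + a) * 2 ^ b) : ℕ) : ℝ)) atTop (nhds 0) := by
    intro D a
    by_cases hD : 1 ≤ D
    swap
    · exact Eventually.of_forall fun t h => absurd h hD
    have hXX : ∀ b : ℕ, b ≤ 2 ^ ((D + a) * 2 ^ b) := by
      intro b
      have e1 : b ≤ 2 ^ b := Nat.lt_two_pow_self.le
      have e2 : 2 ^ b ≤ (D + a) * 2 ^ b := Nat.le_mul_of_pos_left _ (by omega)
      have e3 : (D + a) * 2 ^ b ≤ 2 ^ ((D + a) * 2 ^ b) := Nat.lt_two_pow_self.le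
      omega
    have hlog : ∀ b : ℕ, (2 : ℝ) ^ b * Real.log 2 ≤ Real.log ((2 ^ ((D + a) * 2 ^ b) : ℕ) : ℝ) := by
      intro b
      push_cast
      rw [Real.log_pow]
      push_cast
      have hl2 : 0 < Real.log 2 := Real.log_pos (by norm_num)
      have hDa : (1 : ℝ) ≤ (D : ℝ) + a := by
        have : (1 : ℝ) ≤ D := by exact_mod_cast hD
        have : (0 : ℝ) ≤ a := Nat.cast_nonneg _
        linarith
      have h2b : (0 : ℝ) < 2 ^ b := by positivity
      nlinarith [mul_le_mul_of_nonneg_right hDa (mul_pos h2b hl2).le]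
    have hl2 : 0 < Real.log 2 := Real.log_pos (by norm_num)
    -- the geometric bound
    have hbd : ∀ b : ℕ, X₀ ≤ b → ∫ t in Set.Icc u v, ((∑ n ∈ Icc 1 (2 ^ ((D + a) * 2 ^ b)), F n t / n) /
        Real.log ((2 ^ ((D + a) * 2 ^ b) : ℕ) : ℝ)) ^ 2 ≤
        |C| / Real.log 2 ^ (1 / 8 : ℝ) * (((2 : ℝ) ^ (1 / 8 : ℝ))⁻¹) ^ b := by
      intro b hb
      obtain ⟨X, hX⟩ : ∃ X : ℕ, X = 2 ^ ((D + a) * 2 ^ b) := ⟨_, rfl⟩
      have hlX := hlog b
      have hXb := hXX b
      rw [← hX] at hlX hXb ⊢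
      have hlX0 : 0 < Real.log X := lt_of_lt_of_le (by positivity) hlX
      have h2 := h X (hb.trans hXb)
      simp only [div_pow]
      rw [integral_div, div_le_iff₀ (by positivity)]
      refine h2.trans ?_
      have h3 : ((2 : ℝ) ^ b * Real.log 2) ^ (1 / 8 : ℝ) ≤ Real.log X ^ (1 / 8 : ℝ) :=
        Real.rpow_le_rpow (by positivity) hlX (by norm_num)
      have h4 : ((2 : ℝ) ^ b * Real.log 2) ^ (1 / 8 : ℝ) =
          ((2 : ℝ) ^ (1 / 8 : ℝ)) ^ b * Real.log 2 ^ (1 / 8 : ℝ) := by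
        rw [Real.mul_rpow (by positivity) hl2.le, ← Real.rpow_natCast, ← Real.rpow_natCast,
          ← Real.rpow_mul (by norm_num), ← Real.rpow_mul (by norm_num), mul_comm (b : ℝ)]
      have h5 : 0 < Real.log 2 ^ (1 / 8 : ℝ) := Real.rpow_pos_of_pos hl2 _
      have h6 : 0 < ((2 : ℝ) ^ (1 / 8 : ℝ)) ^ b := by positivity
      rw [h4] at h3
      calc C * Real.log X ^ 2 / Real.log X ^ (1 / 8 : ℝ)
          ≤ |C| * Real.log X ^ 2 / Real.log X ^ (1 / 8 : ℝ) := by
            apply div_le_div_of_nonneg_right _ (by positivity)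
            exact mul_le_mul_of_nonneg_right (le_abs_self C) (by positivity)
        _ ≤ |C| * Real.log X ^ 2 / (((2 : ℝ) ^ (1 / 8 : ℝ)) ^ b * Real.log 2 ^ (1 / 8 : ℝ)) := by
            apply div_le_div_of_nonneg_left (by positivity) (by positivity) h3
        _ = _ := by
            rw [inv_pow]
            field_simp
    have hr : ((2 : ℝ) ^ (1 / 8 : ℝ))⁻¹ < 1 := by
      apply inv_lt_one_of_one_lt₀
      exact Real.one_lt_rpow (by norm_num) (by norm_num)
    have hr0 : 0 ≤ ((2 : ℝ) ^ (1 / 8 : ℝ))⁻¹ := by positivity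
    have h1 := Pool.Agent.W136.RF.ae_tendsto (P := volume.restrict (Set.Icc u v))
      (fun b t => ((∑ n ∈ Icc 1 (2 ^ ((D + a) * 2 ^ (b + X₀))), F n t / n) /
        Real.log ((2 ^ ((D + a) * 2 ^ (b + X₀)) : ℕ) : ℝ)) ^ 2)
      (fun b => by
        obtain ⟨X, hX⟩ : ∃ X : ℕ, X = 2 ^ ((D + a) * 2 ^ (b + X₀)) := ⟨_, rfl⟩
        rw [← hX]
        apply Integrable.of_bound ((hWm X).pow_const 2).aestronglyMeasurable
          (((∑ n ∈ Icc 1 X, (1 : ℝ) / n) / |Real.log X|) ^ 2)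
        apply Eventually.of_forall
        intro t
        rw [norm_pow, norm_div, Real.norm_eq_abs, Real.norm_eq_abs]
        apply pow_le_pow_left₀ (by positivity)
        apply div_le_div_of_nonneg_right _ (abs_nonneg _)
        refine (abs_sum_le_sum_abs _ _).trans (sum_le_sum fun n _ => ?_)
        rw [abs_div, Nat.abs_cast]
        exact div_le_div_of_nonneg_right (h1 n t) (Nat.cast_nonneg _))
      (fun b t => sq_nonneg _)
      (fun b => (hWm _).pow_const 2)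
      (fun b => |C| / Real.log 2 ^ (1 / 8 : ℝ) * (((2 : ℝ) ^ (1 / 8 : ℝ))⁻¹) ^ (b + X₀))
      (((summable_nat_add_iff X₀).2 (summable_geometric_of_lt_one hr0 hr)).mul_left _)
      (fun b => hbd _ (by omega))
    filter_upwards [h1] with t ht _
    rw [← tendsto_add_atTop_iff_nat X₀]
    rw [tendsto_zero_iff_abs_tendsto_zero]
    have h2 := ht.sqrt
    rw [Real.sqrt_zero] at h2
    refine h2.congr fun b => ?_
    simp only [Function.comp]
    exact Real.sqrt_sq_eq_abs _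
  have key2 : ∀ᵐ t ∂(volume.restrict (Set.Icc u v)), ∀ D a : ℕ, 1 ≤ D → Tendsto (fun b : ℕ =>
      (∑ n ∈ Icc 1 (2 ^ ((D + a) * 2 ^ b)), F n t / n) /
        Real.log ((2 ^ ((D + a) * 2 ^ b) : ℕ) : ℝ)) atTop (nhds 0) :=
    ae_all_iff.2 fun D => ae_all_iff.2 fun a => key D a
  filter_upwards [key2] with t ht
  exact Pool.Agent.W136.RF.interp (fun n => F n t) (fun n => h1 n t) ht

end Pool.Agent.L5helper67.MLF
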