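import Pool.Agent.L5helper4.ML.Defs

/-!
# Aperiodicity for almost all parameters (TASK C of helper4, `MP_4a7640_nt`)
-/

set_option autoImplicit false

namespace Pool.Agent.L5helper67.MLA

open Finset Filter MeasureTheory
open Pool.Agent.L5helper4.ML hiding sq

/-- the primes up to `X` -/
def ps (X : ℕ) : Finset ℕ := (Finset.Icc 1 X).filter Nat.Prime

/-- the sum of the reciprocals of the primes up to `X` -/
noncomputable def sig (X : ℕ) : ℝ := ∑ p ∈ ps X, 1 / (p : ℝ)

lemma sum_ps_succ (f : ℕ → ℝ) (X : ℕ) :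
    ∑ p ∈ ps (X + 1), f p = ∑ p ∈ ps X, f p + if (X + 1).Prime then f (X + 1) else 0 := by
  have h : ps (X + 1) = if (X + 1).Prime then insert (X + 1) (ps X) else ps X := by
    ext p
    simp only [ps]
    split_ifs with hp
    · simp only [Finset.mem_insert, Finset.mem_filter, Finset.mem_Icc]
      constructor
      · rintro ⟨⟨h1, h2⟩, h3⟩
        rcases Nat.lt_or_ge X p with h4 | h4
        · exact Or.inl (by omega)
        · exact Or.inr ⟨⟨h1, h4⟩, h3⟩
      · rintro (rfl | ⟨⟨h1, h2⟩, h3⟩)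
        · exact ⟨⟨by omega, le_rfl⟩, hp⟩
        · exact ⟨⟨h1, by omega⟩, h3⟩
    · simp only [Finset.mem_filter, Finset.mem_Icc]
      constructor
      · rintro ⟨⟨h1, h2⟩, h3⟩
        refine ⟨⟨h1, ?_⟩, h3⟩
        rcases Nat.lt_or_ge X p with h4 | h4
        · have : p = X + 1 := by omega
          rw [this] at h3
          exact absurd h3 hp
        · exact h4
      · rintro ⟨⟨h1, h2⟩, h3⟩
        exact ⟨⟨h1, by omega⟩, h3⟩
  rw [h]
  split_ifs with hp
  · rw [Finset.sum_insert, add_comm]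
    simp [ps]
  · rw [add_zero]

lemma sum_ps_eq (f : ℕ → ℝ) (X : ℕ) :
    ∑ p ∈ ps X, f p = ∑ p ∈ Finset.range (X + 1), if p.Prime then f p else 0 := by
  rw [← Finset.sum_filter]
  refine Finset.sum_congr ?_ fun _ _ => rfl
  ext p
  simp only [ps, Finset.mem_filter, Finset.mem_Icc, Finset.mem_range]
  constructor
  · rintro ⟨⟨h1, h2⟩, h3⟩
    exact ⟨by omega, h3⟩
  · rintro ⟨h1, h3⟩
    exact ⟨⟨h3.one_lt.le, by omega⟩, h3⟩

lemma sig_tendsto : Tendsto sig atTop atTop := by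
  have h1 : ¬ Summable (Set.indicator {p : ℕ | p.Prime} (fun n : ℕ => (1 : ℝ) / n)) :=
    not_summable_one_div_on_primes
  have h2 := (not_summable_iff_tendsto_nat_atTop_of_nonneg (fun n => by
    refine Set.indicator_nonneg (fun n _ => ?_) n
    positivity)).1 h1
  have h3 := h2.comp (tendsto_add_atTop_nat 1)
  refine h3.congr fun X => ?_
  rw [sig, sum_ps_eq]
  simp only [Function.comp]
  refine Finset.sum_congr rfl fun p _ => ?_
  simp [Set.indicator_apply]

/-- `∑_{q ≤ n} q^(k-1) ≤ n^k / k` -/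
lemma sum_rpow_le {k : ℝ} (hk : 0 < k) (hk1 : k ≤ 1) (n : ℕ) :
    ∑ q ∈ Finset.Icc 1 n, (q : ℝ) ^ (k - 1) ≤ (n : ℝ) ^ k / k := by
  induction n with
  | zero => simp [Real.zero_rpow hk.ne']
  | succ n ih =>
    rw [Finset.sum_Icc_succ_top (by omega)]
    have hn : (0 : ℝ) < ((n + 1 : ℕ) : ℝ) := by positivity
    have h1 : (n : ℝ) ^ k ≤ ((n + 1 : ℕ) : ℝ) ^ k * (1 + k * (-1 / ((n + 1 : ℕ) : ℝ))) := by
      have h2 : (n : ℝ) = ((n + 1 : ℕ) : ℝ) * (1 + (-1 / ((n + 1 : ℕ) : ℝ))) := by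
        rw [mul_add, mul_one, mul_div_cancel₀ _ hn.ne']
        push_cast
        ring
      have h3 : (-1 : ℝ) ≤ -1 / ((n + 1 : ℕ) : ℝ) := by
        rw [le_div_iff₀ hn]
        push_cast
        nlinarith [(Nat.cast_nonneg n : (0 : ℝ) ≤ n)]
      have h4 : 0 ≤ 1 + (-1 / ((n + 1 : ℕ) : ℝ)) := by linarith
      calc (n : ℝ) ^ k = (((n + 1 : ℕ) : ℝ) * (1 + (-1 / ((n + 1 : ℕ) : ℝ)))) ^ k := by rw [← h2]
        _ = ((n + 1 : ℕ) : ℝ) ^ k * (1 + (-1 / ((n + 1 : ℕ) : ℝ))) ^ k :=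
            Real.mul_rpow hn.le h4
        _ ≤ _ := mul_le_mul_of_nonneg_left (rpow_one_add_le_one_add_mul_self h3 hk.le hk1)
            (Real.rpow_nonneg hn.le _)
    have h5 : ((n + 1 : ℕ) : ℝ) ^ (k - 1) = ((n + 1 : ℕ) : ℝ) ^ k / ((n + 1 : ℕ) : ℝ) := by
      rw [Real.rpow_sub hn, Real.rpow_one]
    have h6 : (n : ℝ) ^ k + k * (((n + 1 : ℕ) : ℝ) ^ k / ((n + 1 : ℕ) : ℝ)) ≤
        ((n + 1 : ℕ) : ℝ) ^ k := by
      have h7 : ((n + 1 : ℕ) : ℝ) ^ k * (1 + k * (-1 / ((n + 1 : ℕ) : ℝ))) =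
          ((n + 1 : ℕ) : ℝ) ^ k - k * (((n + 1 : ℕ) : ℝ) ^ k / ((n + 1 : ℕ) : ℝ)) := by ring
      linarith
    rw [h5]
    have h8 : (n : ℝ) ^ k / k + ((n + 1 : ℕ) : ℝ) ^ k / ((n + 1 : ℕ) : ℝ) =
        ((n : ℝ) ^ k + k * (((n + 1 : ℕ) : ℝ) ^ k / ((n + 1 : ℕ) : ℝ))) / k := by
      field_simp
    calc _ ≤ (n : ℝ) ^ k / k + ((n + 1 : ℕ) : ℝ) ^ k / ((n + 1 : ℕ) : ℝ) := by linarith
      _ = _ := h8
      _ ≤ _ := div_le_div_of_nonneg_right h6 hk.le

/-- bounded measurable functions on an interval are integrable -/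
lemma int_bdd {u v : ℝ} {f : ℝ → ℝ} (hf : Measurable f) (B : ℝ) (h : ∀ t, |f t| ≤ B) :
    Integrable f (volume.restrict (Set.Icc u v)) :=
  Integrable.of_bound hf.aestronglyMeasurable B (Eventually.of_forall fun t => by
    rw [Real.norm_eq_abs]; exact h t)

section

variable {s : ℕ → ℝ → ℝ} {u v C κ : ℝ}

/-- the weighted sum -/
noncomputable def W (s : ℕ → ℝ → ℝ) (c : ℕ → ℝ) (X : ℕ) (t : ℝ) : ℝ :=
  ∑ p ∈ ps X, c p * s p t / p

lemma W_meas (hs : ∀ p, Measurable (s p)) (c : ℕ → ℝ) (X : ℕ) : Measurable (W s c X) := by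
  unfold W
  refine Finset.measurable_fun_sum _ fun p _ => ?_
  exact ((hs p).const_mul _).div_const _

lemma abs_s (hs1 : ∀ p t, s p t = 1 ∨ s p t = -1) (p : ℕ) (t : ℝ) : |s p t| = 1 := by
  rcases hs1 p t with h | h <;> rw [h] <;> simp

lemma W_bdd (hs1 : ∀ p t, s p t = 1 ∨ s p t = -1) {c : ℕ → ℝ} (hc : ∀ p, |c p| ≤ 1) (X : ℕ)
    (t : ℝ) : |W s c X t| ≤ sig X := by
  unfold W sig
  refine (Finset.abs_sum_le_sum_abs _ _).trans (Finset.sum_le_sum fun p _ => ?_)
  rw [abs_div, abs_mul, abs_s hs1, mul_one, Nat.abs_cast]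
  exact div_le_div_of_nonneg_right (hc p) (Nat.cast_nonneg _)

lemma C_nonneg (hQ : QI s u v C κ) : 0 ≤ C := by
  have h := hQ 2 Nat.prime_two ∅ (by simp) 1 (by norm_num) (by simp)
  simp only [Finset.card_empty, Nat.cast_zero, add_zero, mul_one, Real.one_rpow] at h
  exact (abs_nonneg _).trans h

lemma pair (huv : u ≤ v) (hQ : QI s u v C κ) {p q : ℕ} (hp : p.Prime) (hq : q.Prime) (hqp : q < p) :
    |∫ t in Set.Icc u v, s q t * s p t| ≤ 2 * C * ((q : ℝ) / p) ^ κ := by
  have hp0 : (0 : ℝ) < p := by exact_mod_cast hp.pos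
  have h := hQ p hp {q} (by
    intro r hr
    rw [Finset.mem_singleton] at hr
    rw [hr]
    exact ⟨hq, hqp⟩) ((q : ℝ) / p) (by
      refine div_le_div_of_nonneg_right ?_ hp0.le
      exact_mod_cast hq.one_lt.le) (by
      intro r hr
      rw [Finset.mem_singleton] at hr
      rw [hr, div_mul_cancel₀ _ hp0.ne'])
  simp only [Finset.prod_singleton, Finset.card_singleton, Nat.cast_one] at h
  rw [intervalIntegral.integral_of_le huv, ← integral_Icc_eq_integral_Ioc] at h
  calc _ ≤ C * (1 + 1) * ((q : ℝ) / p) ^ κ := h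
    _ = _ := by ring

lemma cross (huv : u ≤ v) (hκ : 0 < κ) (hs : ∀ p, Measurable (s p))
    (hs1 : ∀ p t, s p t = 1 ∨ s p t = -1) (hQ : QI s u v C κ) {c : ℕ → ℝ} (hc : ∀ p, |c p| ≤ 1)
    {X : ℕ} (hp : (X + 1).Prime) :
    |∫ t in Set.Icc u v, W s c X t * s (X + 1) t| ≤ 2 * C / min κ 1 := by
  set k := min κ 1 with hk
  have hk0 : 0 < k := lt_min hκ one_pos
  have hk1 : k ≤ 1 := min_le_right _ _
  have hC := C_nonneg hQ
  have hp0 : (0 : ℝ) < ((X + 1 : ℕ) : ℝ) := by positivity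
  have h1 : ∫ t in Set.Icc u v, W s c X t * s (X + 1) t =
      ∑ q ∈ ps X, c q / q * ∫ t in Set.Icc u v, s q t * s (X + 1) t := by
    have h2 : ∀ t, W s c X t * s (X + 1) t = ∑ q ∈ ps X, c q / q * (s q t * s (X + 1) t) := by
      intro t
      rw [W, Finset.sum_mul]
      exact Finset.sum_congr rfl fun q _ => by ring
    simp only [h2]
    rw [integral_finsetSum]
    · exact Finset.sum_congr rfl fun q _ => integral_const_mul _ _
    · intro q _
      refine (int_bdd ((hs q).mul (hs (X + 1))) 1 fun t => ?_).const_mul _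
      rw [Pi.mul_apply, abs_mul, abs_s hs1, abs_s hs1, mul_one]
  rw [h1]
  calc |∑ q ∈ ps X, c q / q * ∫ t in Set.Icc u v, s q t * s (X + 1) t|
      ≤ ∑ q ∈ ps X, |c q / q * ∫ t in Set.Icc u v, s q t * s (X + 1) t| :=
        Finset.abs_sum_le_sum_abs _ _
    _ ≤ ∑ q ∈ ps X, 2 * C / ((X + 1 : ℕ) : ℝ) ^ k * (q : ℝ) ^ (k - 1) := by
        refine Finset.sum_le_sum fun q hq => ?_
        rw [ps, Finset.mem_filter, Finset.mem_Icc] at hq
        have hq0 : (0 : ℝ) < q := by exact_mod_cast hq.2.pos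
        have hlt : q < X + 1 := by omega
        have h3 := pair huv hQ hp hq.2 hlt
        have h4 : ((q : ℝ) / ((X + 1 : ℕ) : ℝ)) ^ κ ≤ ((q : ℝ) / ((X + 1 : ℕ) : ℝ)) ^ k := by
          refine Real.rpow_le_rpow_of_exponent_ge (by positivity) ?_ (min_le_left _ _)
          rw [div_le_one hp0]
          exact_mod_cast hlt.le
        rw [abs_mul, abs_div, Nat.abs_cast]
        calc |c q| / q * |∫ t in Set.Icc u v, s q t * s (X + 1) t|
            ≤ 1 / q * (2 * C * ((q : ℝ) / ((X + 1 : ℕ) : ℝ)) ^ k) := by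
              refine mul_le_mul (div_le_div_of_nonneg_right (hc q) hq0.le) ?_ (abs_nonneg _)
                (by positivity)
              exact h3.trans (mul_le_mul_of_nonneg_left h4 (by positivity))
          _ = 2 * C / ((X + 1 : ℕ) : ℝ) ^ k * (q : ℝ) ^ (k - 1) := by
              rw [Real.div_rpow hq0.le hp0.le, Real.rpow_sub hq0, Real.rpow_one]
              field_simp
    _ = 2 * C / ((X + 1 : ℕ) : ℝ) ^ k * ∑ q ∈ ps X, (q : ℝ) ^ (k - 1) := by
        rw [Finset.mul_sum]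
    _ ≤ 2 * C / ((X + 1 : ℕ) : ℝ) ^ k * (((X + 1 : ℕ) : ℝ) ^ k / k) := by
        refine mul_le_mul_of_nonneg_left ?_ (by positivity)
        refine le_trans (Finset.sum_le_sum_of_subset_of_nonneg (Finset.filter_subset _ _)
          fun q _ _ => Real.rpow_nonneg (Nat.cast_nonneg _) _) ?_
        refine (sum_rpow_le hk0 hk1 X).trans ?_
        refine div_le_div_of_nonneg_right ?_ hk0.le
        exact Real.rpow_le_rpow (Nat.cast_nonneg _) (by push_cast; linarith) hk0.le
    _ = 2 * C / k := by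
        have : ((X + 1 : ℕ) : ℝ) ^ k ≠ 0 := (Real.rpow_pos_of_pos hp0 k).ne'
        field_simp

lemma second_moment (huv : u ≤ v) (hκ : 0 < κ) (hs : ∀ p, Measurable (s p))
    (hs1 : ∀ p t, s p t = 1 ∨ s p t = -1) (hQ : QI s u v C κ) {c : ℕ → ℝ} (hc : ∀ p, |c p| ≤ 1)
    (X : ℕ) :
    ∫ t in Set.Icc u v, W s c X t ^ 2 ≤ ((v - u) + 4 * C / min κ 1) * sig X := by
  have hk0 : 0 < min κ 1 := lt_min hκ one_pos
  have hC := C_nonneg hQ
  induction X with
  | zero => simp [W, sig, ps]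
  | succ X ih =>
    have hsig : sig (X + 1) = sig X + if (X + 1).Prime then 1 / ((X + 1 : ℕ) : ℝ) else 0 :=
      sum_ps_succ _ X
    have hW : ∀ t, W s c (X + 1) t = W s c X t +
        if (X + 1).Prime then c (X + 1) * s (X + 1) t / ((X + 1 : ℕ) : ℝ) else 0 :=
      fun t => sum_ps_succ _ X
    by_cases hp : (X + 1).Prime
    · simp only [if_pos hp] at hsig hW
      have hp0 : (0 : ℝ) < ((X + 1 : ℕ) : ℝ) := by positivity
      have hp1 : (1 : ℝ) ≤ ((X + 1 : ℕ) : ℝ) := by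
        push_cast
        linarith [(Nat.cast_nonneg X : (0 : ℝ) ≤ X)]
      set a : ℝ := c (X + 1) / ((X + 1 : ℕ) : ℝ) with ha
      have haa : |a| ≤ 1 / ((X + 1 : ℕ) : ℝ) := by
        rw [ha, abs_div, abs_of_pos hp0]
        exact div_le_div_of_nonneg_right (hc _) hp0.le
      have hexp : ∀ t, W s c (X + 1) t ^ 2 =
          W s c X t ^ 2 + 2 * a * (W s c X t * s (X + 1) t) + a ^ 2 := by
        intro t
        have h1 : s (X + 1) t ^ 2 = 1 := by
          rcases hs1 (X + 1) t with h | h <;> rw [h] <;> norm_num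
        rw [hW t]
        have h2 : c (X + 1) * s (X + 1) t / ((X + 1 : ℕ) : ℝ) = a * s (X + 1) t := by
          rw [ha]; ring
        rw [h2]
        have h3 : (W s c X t + a * s (X + 1) t) ^ 2 = W s c X t ^ 2 +
            2 * a * (W s c X t * s (X + 1) t) + a ^ 2 * s (X + 1) t ^ 2 := by ring
        rw [h3, h1, mul_one]
      have hi1 : Integrable (fun t => W s c X t ^ 2) (volume.restrict (Set.Icc u v)) := by
        refine int_bdd ((W_meas hs c X).pow_const 2) (sig X ^ 2) fun t => ?_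
        rw [abs_pow]
        exact pow_le_pow_left₀ (abs_nonneg _) (W_bdd hs1 hc X t) 2
      have hi2 : Integrable (fun t => 2 * a * (W s c X t * s (X + 1) t))
          (volume.restrict (Set.Icc u v)) := by
        refine (int_bdd ((W_meas hs c X).mul (hs (X + 1))) (sig X) fun t => ?_).const_mul _
        rw [Pi.mul_apply, abs_mul, abs_s hs1, mul_one]
        exact W_bdd hs1 hc X t
      have hi3 : Integrable (fun _ : ℝ => a ^ 2) (volume.restrict (Set.Icc u v)) :=
        int_bdd measurable_const (a ^ 2) fun t => by rw [abs_of_nonneg (sq_nonneg a)]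
      have hi12 : Integrable (fun t => W s c X t ^ 2 + 2 * a * (W s c X t * s (X + 1) t))
          (volume.restrict (Set.Icc u v)) := hi1.add hi2
      simp only [hexp]
      rw [integral_add hi12 hi3, integral_add hi1 hi2, integral_const_mul]
      have h4 := cross huv hκ hs hs1 hQ hc hp
      have h5 : ∫ _t in Set.Icc u v, a ^ 2 = (v - u) * a ^ 2 := by
        rw [integral_const, smul_eq_mul, measureReal_restrict_apply MeasurableSet.univ,
          Set.univ_inter, Real.volume_real_Icc_of_le huv]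
      have h6 : a ^ 2 ≤ 1 / ((X + 1 : ℕ) : ℝ) := by
        have h7 : a ^ 2 ≤ (1 / ((X + 1 : ℕ) : ℝ)) ^ 2 := by
          rw [← sq_abs a]
          exact pow_le_pow_left₀ (abs_nonneg _) haa 2
        refine h7.trans ?_
        have h8 : 1 / ((X + 1 : ℕ) : ℝ) ≤ 1 := by
          rw [div_le_one hp0]; exact hp1
        have h9 : 0 ≤ 1 / ((X + 1 : ℕ) : ℝ) := by positivity
        nlinarith
      have h10 : 2 * a * ∫ t in Set.Icc u v, W s c X t * s (X + 1) t ≤
          4 * C / min κ 1 * (1 / ((X + 1 : ℕ) : ℝ)) := by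
        refine (le_abs_self _).trans ?_
        rw [abs_mul, abs_mul, abs_two]
        calc 2 * |a| * |∫ t in Set.Icc u v, W s c X t * s (X + 1) t|
            ≤ 2 * (1 / ((X + 1 : ℕ) : ℝ)) * (2 * C / min κ 1) := by
              refine mul_le_mul (by linarith) h4 (abs_nonneg _) (by positivity)
          _ = _ := by ring
      have h11 : (v - u) * a ^ 2 ≤ (v - u) * (1 / ((X + 1 : ℕ) : ℝ)) :=
        mul_le_mul_of_nonneg_left h6 (sub_nonneg.2 huv)
      rw [h5, hsig]
      linarith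
    · simp only [if_neg hp, add_zero] at hsig hW
      simp only [hW, hsig]
      exact ih

end

/-- TASK C -/
theorem aper_ae (s : ℕ → ℝ → ℝ) (u v C κ : ℝ) (huv : u ≤ v) (hκ : 0 < κ) (hs : ∀ p, Measurable (s p))
    (hs1 : ∀ p t, s p t = 1 ∨ s p t = -1) (hQ : QI s u v C κ) (c : ℕ → ℝ) (hc : ∀ p, |c p| ≤ 1) :
    ∀ᵐ t ∂(volume.restrict (Set.Icc u v)), Tendsto (fun X : ℕ => ∑ p ∈ (Icc 1 X).filter Nat.Prime,
      (1 - c p * s p t) / p) atTop atTop := by
  set μ := volume.restrict (Set.Icc u v) with hμ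
  set C' : ℝ := (v - u) + 4 * C / min κ 1 with hC'
  have hk0 : 0 < min κ 1 := lt_min hκ one_pos
  have hC'0 : 0 ≤ C' := by
    have := C_nonneg hQ
    have h2 := sub_nonneg.2 huv
    positivity
  have hS : ∀ X t, ∑ p ∈ (Icc 1 X).filter Nat.Prime, (1 - c p * s p t) / p = sig X - W s c X t := by
    intro X t
    rw [sig, W, ← Finset.sum_sub_distrib]
    exact Finset.sum_congr rfl fun p _ => by ring
  have hmono : ∀ t, Monotone (fun X => sig X - W s c X t) := by
    intro t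
    refine monotone_nat_of_le_succ fun X => ?_
    rw [← hS, ← hS]
    refine Finset.sum_le_sum_of_subset_of_nonneg ?_ fun p _ _ => ?_
    · intro p hp
      rw [Finset.mem_filter, Finset.mem_Icc] at hp ⊢
      exact ⟨⟨hp.1.1, by omega⟩, hp.2⟩
    · refine div_nonneg ?_ (Nat.cast_nonneg _)
      have h1 : |c p * s p t| ≤ 1 := by
        rw [abs_mul, abs_s hs1, mul_one]
        exact hc p
      linarith [(abs_le.1 h1).2]
  -- the bad sets
  have hbad : ∀ M : ℕ, μ {t | ∀ X, sig X - W s c X t ≤ M} = 0 := by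
    intro M
    have h1 : ∀ X, (M : ℝ) < sig X →
        (sig X - M) ^ 2 * μ.real {t | ∀ X, sig X - W s c X t ≤ M} ≤ C' * sig X := by
      intro X hX
      have hi1 : Integrable (fun t => W s c X t ^ 2) μ := by
        refine int_bdd ((W_meas hs c X).pow_const 2) (sig X ^ 2) fun t => ?_
        rw [abs_pow]
        exact pow_le_pow_left₀ (abs_nonneg _) (W_bdd hs1 hc X t) 2
      have h2 := mul_meas_ge_le_integral_of_nonneg (μ := μ) (f := fun t => W s c X t ^ 2)
        (Eventually.of_forall fun t => sq_nonneg _) hi1 ((sig X - M) ^ 2)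
      have h3 : μ.real {t | ∀ X, sig X - W s c X t ≤ M} ≤
          μ.real {t | (sig X - M) ^ 2 ≤ W s c X t ^ 2} := by
        refine measureReal_mono ?_ (measure_ne_top _ _)
        intro t ht
        have h4 : sig X - W s c X t ≤ M := ht X
        show (sig X - M) ^ 2 ≤ W s c X t ^ 2
        exact pow_le_pow_left₀ (by linarith) (by linarith) 2
      calc (sig X - M) ^ 2 * μ.real {t | ∀ X, sig X - W s c X t ≤ M}
          ≤ (sig X - M) ^ 2 * μ.real {t | (sig X - M) ^ 2 ≤ W s c X t ^ 2} :=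
            mul_le_mul_of_nonneg_left h3 (sq_nonneg _)
        _ ≤ ∫ t, W s c X t ^ 2 ∂μ := h2
        _ ≤ C' * sig X := second_moment huv hκ hs hs1 hQ hc X
    set m := μ.real {t | ∀ X, sig X - W s c X t ≤ M} with hm
    have hm0 : 0 ≤ m := measureReal_nonneg
    have hmz : m = 0 := by
      by_contra hne
      have hmp : 0 < m := lt_of_le_of_ne hm0 (Ne.symm hne)
      -- choose X with sig X large
      obtain ⟨X, hX⟩ := (sig_tendsto.eventually_gt_atTop (2 * M + 4 * C' / m + 1)).exists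
      have h5 : 0 ≤ 4 * C' / m := by positivity
      have hM0 : (0 : ℝ) ≤ M := Nat.cast_nonneg _
      have h6 : (M : ℝ) < sig X := by linarith
      have h7 := h1 X h6
      have h8 : sig X / 2 ≤ sig X - M := by linarith
      have h9 : 0 < sig X := by linarith
      have h10 : (sig X / 2) ^ 2 ≤ (sig X - M) ^ 2 := pow_le_pow_left₀ (by positivity) h8 2
      have h11 : (sig X / 2) ^ 2 * m ≤ C' * sig X :=
        (mul_le_mul_of_nonneg_right h10 hm0).trans h7
      have h12 : sig X * m ≤ 4 * C' := by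
        have h13 : sig X * (sig X * m) ≤ sig X * (4 * C') := by nlinarith
        exact le_of_mul_le_mul_left h13 h9
      have h14 : 4 * C' / m < sig X := by linarith
      rw [div_lt_iff₀ hmp] at h14
      linarith
    rw [hm, measureReal_eq_zero_iff] at hmz
    exact hmz
  have hall : ∀ᵐ t ∂μ, ∀ M : ℕ, ¬ ∀ X, sig X - W s c X t ≤ M := by
    rw [ae_all_iff]
    intro M
    rw [ae_iff]
    simpa using hbad M
  filter_upwards [hall] with t ht
  simp only [hS]
  refine tendsto_atTop_atTop_of_monotone (hmono t) fun b => ?_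
  obtain ⟨M, hM⟩ := exists_nat_ge b
  have h1 := ht M
  push Not at h1
  obtain ⟨X, hX⟩ := h1
  exact ⟨X, hM.trans hX.le⟩

end Pool.Agent.L5helper67.MLA
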