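import Pool.Agent.L5helper67.ML.QIConvex

/-!
# Three families of quasi-independent square waves (TASK D of helper4, `MP_4a7640_nt`)
-/

set_option autoImplicit false

namespace Pool.Agent.L5helper67.MLQ

open Pool.Agent.L5helper4.ML hiding sq

/-- (D1) linear phases -/
theorem qi_linear (lam : ℕ → ℝ) (κ C₀ : ℝ) (hκ : 0 < κ) (hC₀ : 0 < C₀)
    (hpos : ∀ p : ℕ, p.Prime → 0 < lam p)
    (hcmp : ∀ p q : ℕ, p.Prime → q.Prime → q < p → lam q ≤ C₀ * ((q : ℝ) / p) ^ κ * lam p)
    (u v : ℝ) (huv : u ≤ v) :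
    ∃ C : ℝ, QI (fun p t => Pool.Agent.L5helper4.ML.sq (t * lam p)) u v C κ := by
  refine qi_convex (fun p t => t * lam p) (fun p _ => lam p) (fun _ _ => 0) u v C₀ κ huv hκ hC₀
    ?_ ?_ ?_ ?_ ?_ ?_
  · intro p _ t _
    simpa using (hasDerivAt_id t).mul_const (lam p)
  · intro p _ t _
    exact hasDerivAt_const t (lam p)
  · intro p hp t _
    exact hpos p hp
  · intro p _ t _
    exact le_rfl
  · intro p _
    exact continuousOn_const
  · intro p q hp hq hqp t _
    exact hcmp p q hp hq hqp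

/-- (D2) the phases `p ^ t` -/
theorem qi_rpow (u v : ℝ) (hu : 0 < u) (huv : u ≤ v) :
    ∃ C : ℝ, QI (fun p t => Pool.Agent.L5helper4.ML.sq ((p : ℝ) ^ t)) u v C u := by
  refine qi_convex (fun p t => (p : ℝ) ^ t) (fun p t => (p : ℝ) ^ t * Real.log p)
    (fun p t => (p : ℝ) ^ t * Real.log p * Real.log p) u v 1 u huv hu one_pos ?_ ?_ ?_ ?_ ?_ ?_
  · intro p hp t _
    have hp0 : (0 : ℝ) < p := by exact_mod_cast hp.pos
    exact (Real.hasStrictDerivAt_const_rpow hp0 t).hasDerivAt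
  · intro p hp t _
    have hp0 : (0 : ℝ) < p := by exact_mod_cast hp.pos
    exact ((Real.hasStrictDerivAt_const_rpow hp0 t).hasDerivAt).mul_const _
  · intro p hp t _
    have hp0 : (0 : ℝ) < p := by exact_mod_cast hp.pos
    have hp1 : (1 : ℝ) < p := by exact_mod_cast hp.one_lt
    exact mul_pos (Real.rpow_pos_of_pos hp0 t) (Real.log_pos hp1)
  · intro p hp t _
    have hp0 : (0 : ℝ) < p := by exact_mod_cast hp.pos
    have hp1 : (1 : ℝ) < p := by exact_mod_cast hp.one_lt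
    exact (mul_pos (mul_pos (Real.rpow_pos_of_pos hp0 t) (Real.log_pos hp1)) (Real.log_pos hp1)).le
  · intro p hp
    have hp0 : (0 : ℝ) < p := by exact_mod_cast hp.pos
    refine ((Continuous.continuousOn ?_).mul continuousOn_const).mul continuousOn_const
    exact Real.continuous_const_rpow hp0.ne'
  · intro p q hp hq hqp t ht
    have hp0 : (0 : ℝ) < p := by exact_mod_cast hp.pos
    have hq0 : (0 : ℝ) < q := by exact_mod_cast hq.pos
    have hq1 : (1 : ℝ) < q := by exact_mod_cast hq.one_lt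
    have hqp' : (q : ℝ) ≤ p := by exact_mod_cast hqp.le
    have h1 : ((q : ℝ) / p) ^ t ≤ ((q : ℝ) / p) ^ u :=
      Real.rpow_le_rpow_of_exponent_ge (by positivity) ((div_le_one hp0).2 hqp') ht.1
    have h2 : Real.log q ≤ Real.log p := Real.log_le_log hq0 hqp'
    have h3 : (q : ℝ) ^ t = ((q : ℝ) / p) ^ t * (p : ℝ) ^ t := by
      rw [← Real.mul_rpow (by positivity) hp0.le, div_mul_cancel₀ _ hp0.ne']
    rw [one_mul, h3]
    calc ((q : ℝ) / p) ^ t * (p : ℝ) ^ t * Real.log q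
        ≤ ((q : ℝ) / p) ^ u * (p : ℝ) ^ t * Real.log p := by
          refine mul_le_mul (mul_le_mul_of_nonneg_right h1 (Real.rpow_nonneg hp0.le t)) h2
            (Real.log_pos hq1).le (by positivity)
      _ = ((q : ℝ) / p) ^ u * ((p : ℝ) ^ t * Real.log p) := by ring

/-- (D3) the phases `t ^ p` -/
theorem qi_pow (u v : ℝ) (hu : 1 < u) (huv : u ≤ v) :
    ∃ C : ℝ, QI (fun p t => Pool.Agent.L5helper4.ML.sq (t ^ p)) u v C 1 := by
  refine qi_convex (fun p t => t ^ p) (fun p t => (p : ℝ) * t ^ (p - 1))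
    (fun p t => (p : ℝ) * (((p - 1 : ℕ) : ℝ) * t ^ (p - 1 - 1))) u v 1 1 huv one_pos one_pos
    ?_ ?_ ?_ ?_ ?_ ?_
  · intro p _ t _
    exact hasDerivAt_pow p t
  · intro p _ t _
    exact (hasDerivAt_pow (p - 1) t).const_mul _
  · intro p hp t ht
    have hp0 : (0 : ℝ) < p := by exact_mod_cast hp.pos
    have ht0 : 0 < t := by linarith [ht.1]
    positivity
  · intro p _ t ht
    have ht0 : 0 < t := by linarith [ht.1]
    positivity
  · intro p _
    fun_prop
  · intro p q hp hq hqp t ht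
    have hp0 : (0 : ℝ) < p := by exact_mod_cast hp.pos
    have ht1 : 1 ≤ t := by linarith [ht.1]
    rw [Real.rpow_one, one_mul]
    have h1 : (q : ℝ) / p * ((p : ℝ) * t ^ (p - 1)) = q * t ^ (p - 1) := by
      field_simp
    rw [h1]
    exact mul_le_mul_of_nonneg_left (pow_le_pow_right₀ ht1 (by omega)) (Nat.cast_nonneg _)

end Pool.Agent.L5helper67.MLQ
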