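import Pool.Agent.L5helper4.ML.Defs

/-!
# Quasi-independence of square waves of convex phases (TASK A of helper4, `MP_4a7640_nt`)
-/

set_option autoImplicit false

namespace Pool.Agent.L5helper67.MLQ

open Finset Filter MeasureTheory Set
open Pool.Agent.L5helper4.ML hiding sq

/-- distance to the nearest even integer -/
noncomputable def T (x : ℝ) : ℝ := ‖(x : AddCircle (2 : ℝ))‖

lemma T_nonneg (x : ℝ) : 0 ≤ T x := norm_nonneg _

lemma T_le (x : ℝ) : T x ≤ 1 := by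
  have := AddCircle.norm_le_half_period (p := (2 : ℝ)) (x := (x : AddCircle (2 : ℝ))) (by norm_num)
  have h2 : |(2 : ℝ)| / 2 = 1 := by norm_num
  rw [h2] at this
  exact this

lemma T_cont : Continuous T := continuous_norm.comp (AddCircle.continuous_mk' 2)

lemma T_even (m : ℤ) {y : ℝ} (h1 : 2 * (m : ℝ) < y) (h2 : y < 2 * m + 1) : T y = y - 2 * m := by
  have hr : round ((2 : ℝ)⁻¹ * y) = m := by
    rw [round_eq, Int.floor_eq_iff]
    constructor <;> linarith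
  rw [T, AddCircle.norm_eq, hr, abs_of_pos (by linarith)]
  ring

lemma T_odd (m : ℤ) {y : ℝ} (h1 : 2 * (m : ℝ) - 1 < y) (h2 : y < 2 * m) : T y = 2 * m - y := by
  have hr : round ((2 : ℝ)⁻¹ * y) = m := by
    rw [round_eq, Int.floor_eq_iff]
    constructor <;> linarith
  rw [T, AddCircle.norm_eq, hr, abs_of_neg (by linarith)]
  ring

lemma T_deriv {x : ℝ} (hx : ∀ n : ℤ, x ≠ n) : HasDerivAt T (Pool.Agent.L5helper4.ML.sq x) x := by
  have h1 : (⌊x⌋ : ℝ) < x := lt_of_le_of_ne (Int.floor_le x) (hx _).symm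
  have h2 : x < ⌊x⌋ + 1 := Int.lt_floor_add_one x
  have hnhds : Ioo (⌊x⌋ : ℝ) (⌊x⌋ + 1) ∈ nhds x := Ioo_mem_nhds h1 h2
  rcases Int.even_or_odd ⌊x⌋ with he | ho
  · obtain ⟨m, hm⟩ := he
    have hm' : (⌊x⌋ : ℝ) = 2 * m := by rw [hm]; push_cast; ring
    have hsq : Pool.Agent.L5helper4.ML.sq x = 1 := by
      unfold Pool.Agent.L5helper4.ML.sq
      rw [if_pos ⟨m, hm⟩]
    rw [hsq]
    refine ((hasDerivAt_id x).sub_const (2 * (m : ℝ))).congr_of_eventuallyEq ?_
    filter_upwards [hnhds] with y hy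
    rw [hm'] at hy
    rw [T_even m hy.1 hy.2]
    rfl
  · have hsq : Pool.Agent.L5helper4.ML.sq x = -1 := by
      unfold Pool.Agent.L5helper4.ML.sq
      rw [if_neg (Int.not_even_iff_odd.2 ho)]
    obtain ⟨k, hk⟩ := ho
    have hm' : (⌊x⌋ : ℝ) = 2 * ((k + 1 : ℤ) : ℝ) - 1 := by rw [hk]; push_cast; ring
    rw [hsq]
    refine ((hasDerivAt_id x).const_sub (2 * ((k + 1 : ℤ) : ℝ))).congr_of_eventuallyEq ?_
    filter_upwards [hnhds] with y hy
    rw [hm'] at hy
    rw [T_odd (k + 1) hy.1 (by linarith [hy.2])]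
    rfl

/-- the data of one phase on `[a, b]` -/
structure Phase (Φ Φ' Φ'' : ℝ → ℝ) (a b : ℝ) : Prop where
  h1 : ∀ t ∈ Icc a b, HasDerivAt Φ (Φ' t) t
  h2 : ∀ t ∈ Icc a b, HasDerivAt Φ' (Φ'' t) t
  h3 : ∀ t ∈ Icc a b, 0 < Φ' t
  h4 : ∀ t ∈ Icc a b, 0 ≤ Φ'' t
  h4' : ContinuousOn Φ'' (Icc a b)

namespace Phase

variable {Φ Φ' Φ'' : ℝ → ℝ} {a b : ℝ}

lemma mono (h : Phase Φ Φ' Φ'' a b) {c d : ℝ} (hc : a ≤ c) (hd : d ≤ b) : Phase Φ Φ' Φ'' c d := by
  have hs : Icc c d ⊆ Icc a b := Icc_subset_Icc hc hd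
  exact ⟨fun t ht => h.h1 t (hs ht), fun t ht => h.h2 t (hs ht), fun t ht => h.h3 t (hs ht),
    fun t ht => h.h4 t (hs ht), h.h4'.mono hs⟩

lemma cont (h : Phase Φ Φ' Φ'' a b) : ContinuousOn Φ (Icc a b) :=
  fun t ht => (h.h1 t ht).continuousAt.continuousWithinAt

lemma cont' (h : Phase Φ Φ' Φ'' a b) : ContinuousOn Φ' (Icc a b) :=
  fun t ht => (h.h2 t ht).continuousAt.continuousWithinAt

lemma strict (h : Phase Φ Φ' Φ'' a b) : ∀ x ∈ Icc a b, ∀ y ∈ Icc a b, x < y → Φ x < Φ y := by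
  intro x hx y hy hxy
  have hs : Icc x y ⊆ Icc a b := Icc_subset_Icc hx.1 hy.2
  obtain ⟨c, hc, he⟩ := exists_hasDerivAt_eq_slope Φ Φ' hxy (h.cont.mono hs)
    (fun t ht => h.h1 t (hs (Ioo_subset_Icc_self ht)))
  have h3 := h.h3 c (hs (Ioo_subset_Icc_self hc))
  rw [he] at h3
  have := (div_pos_iff_of_pos_right (sub_pos.2 hxy)).1 h3
  linarith

lemma deriv_mono (h : Phase Φ Φ' Φ'' a b) : ∀ x ∈ Icc a b, ∀ y ∈ Icc a b, x ≤ y → Φ' x ≤ Φ' y := by
  intro x hx y hy hxy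
  rcases hxy.eq_or_lt with rfl | hxy
  · exact le_rfl
  have hs : Icc x y ⊆ Icc a b := Icc_subset_Icc hx.1 hy.2
  obtain ⟨c, hc, he⟩ := exists_hasDerivAt_eq_slope Φ' Φ'' hxy (h.cont'.mono hs)
    (fun t ht => h.h2 t (hs (Ioo_subset_Icc_self ht)))
  have h3 := h.h4 c (hs (Ioo_subset_Icc_self hc))
  rw [he] at h3
  have h4 : 0 < y - x := sub_pos.2 hxy
  have := (div_nonneg_iff.1 h3)
  rcases this with h5 | h5
  · linarith [h5.1]
  · linarith [h5.2]

/-- consecutive integer values: the gap is at least `1 / Φ'` at the right end -/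
lemma gap (h : Phase Φ Φ' Φ'' a b) {x y : ℝ} (hx : x ∈ Icc a b) (hy : y ∈ Icc a b) (hxy : x < y)
    (h1 : 1 ≤ Φ y - Φ x) : 1 / Φ' y ≤ y - x := by
  have hs : Icc x y ⊆ Icc a b := Icc_subset_Icc hx.1 hy.2
  obtain ⟨c, hc, he⟩ := exists_hasDerivAt_eq_slope Φ Φ' hxy (h.cont.mono hs)
    (fun t ht => h.h1 t (hs (Ioo_subset_Icc_self ht)))
  have hc' := hs (Ioo_subset_Icc_self hc)
  have h3 := h.deriv_mono c hc' y hy hc.2.le
  have h4 := h.h3 y hy
  have h5 : 0 < y - x := sub_pos.2 hxy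
  rw [div_le_iff₀ h4]
  rw [he, div_le_iff₀ h5] at h3
  linarith

/-- the sum of `1 / Φ'` over a set of points with values at distance at least one -/
lemma sum_sep (h : Phase Φ Φ' Φ'' a b) (Z : Finset ℝ) : (∀ z ∈ Z, z ∈ Icc a b) →
    (∀ z ∈ Z, ∀ z' ∈ Z, z < z' → 1 ≤ Φ z' - Φ z) → ∀ c, (∀ z ∈ Z, z ≤ c) → a ≤ c → a ≤ b →
    ∑ z ∈ Z, 1 / Φ' z ≤ (c - a) + 1 / Φ' a := by
  classical
  induction Z using Finset.induction_on_max with
  | empty =>
    intro _ _ c _ hc hab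
    have := h.h3 a ⟨le_rfl, hab⟩
    rw [Finset.sum_empty]
    have h2 : 0 < 1 / Φ' a := by positivity
    linarith
  | insert x s hs ih =>
    intro hZ hsep c hc hac hab
    have hxs : x ∉ s := fun hx => lt_irrefl _ (hs x hx)
    rw [Finset.sum_insert hxs]
    have hx : x ∈ Icc a b := hZ x (Finset.mem_insert_self _ _)
    have hxc : x ≤ c := hc x (Finset.mem_insert_self _ _)
    have ha := h.h3 a ⟨le_rfl, hab⟩
    rcases s.eq_empty_or_nonempty with rfl | hne
    · rw [Finset.sum_empty, add_zero]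
      have h3 := h.deriv_mono a ⟨le_rfl, hab⟩ x hx hx.1
      have := one_div_le_one_div_of_le ha h3
      linarith
    · have hmem := s.max'_mem hne
      have h3 := ih (fun z hz => hZ z (Finset.mem_insert_of_mem hz))
        (fun z hz z' hz' => hsep z (Finset.mem_insert_of_mem hz) z' (Finset.mem_insert_of_mem hz'))
        (s.max' hne) (fun z hz => s.le_max' z hz)
        (hZ _ (Finset.mem_insert_of_mem hmem)).1 hab
      have h4 := h.gap (hZ _ (Finset.mem_insert_of_mem hmem)) hx (hs _ hmem)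
        (hsep _ (Finset.mem_insert_of_mem hmem) x (Finset.mem_insert_self _ _) (hs _ hmem))
      linarith

lemma measurable_sq (h : Phase Φ Φ' Φ'' a b) :
    AEMeasurable (fun t => Pool.Agent.L5helper4.ML.sq (Φ t)) (volume.restrict (Icc a b)) :=
  sq_meas.comp_aemeasurable (h.cont.aemeasurable measurableSet_Icc)

lemma integrable_sq (h : Phase Φ Φ' Φ'' a b) (hab : a ≤ b) :
    IntervalIntegrable (fun t => Pool.Agent.L5helper4.ML.sq (Φ t)) volume a b := by
  rw [intervalIntegrable_iff_integrableOn_Icc_of_le hab]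
  refine Integrable.mono' (g := fun _ => (1 : ℝ)) (by simp) h.measurable_sq.aestronglyMeasurable ?_
  refine Eventually.of_forall fun t => ?_
  rcases sq_or (Φ t) with h | h <;> rw [h] <;> simp

/-- the first derivative test -/
lemma single (h : Phase Φ Φ' Φ'' a b) (hab : a ≤ b) :
    |∫ t in a..b, Pool.Agent.L5helper4.ML.sq (Φ t)| ≤ 1 / Φ' a := by
  -- the set of points with integer phase is countable
  have hcount : {t : ℝ | t ∈ Icc a b ∧ ∃ n : ℤ, Φ t = n}.Countable := by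
    refine Set.MapsTo.countable_of_injOn (f := Φ) (t := Set.range ((↑) : ℤ → ℝ)) ?_ ?_
      (Set.countable_range _)
    · rintro t ⟨_, n, hn⟩
      exact ⟨n, hn.symm⟩
    · rintro x ⟨hx, _⟩ y ⟨hy, _⟩ hxy
      rcases lt_trichotomy x y with h1 | h1 | h1
      · exact absurd hxy (h.strict x hx y hy h1).ne
      · exact h1
      · exact absurd hxy (h.strict y hy x hx h1).ne'
  have hne : ∀ t ∈ Icc a b, Φ' t ≠ 0 := fun t ht => (h.h3 t ht).ne'
  have hJc : ContinuousOn (fun t => T (Φ t) * (Φ'' t / Φ' t ^ 2)) (Icc a b) :=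
    (T_cont.comp_continuousOn h.cont).mul (h.h4'.div (h.cont'.pow 2) fun t ht =>
      pow_ne_zero 2 (hne t ht))
  have hKc : ContinuousOn (fun t => Φ'' t / Φ' t ^ 2) (Icc a b) :=
    h.h4'.div (h.cont'.pow 2) fun t ht => pow_ne_zero 2 (hne t ht)
  have hJi : IntervalIntegrable (fun t => T (Φ t) * (Φ'' t / Φ' t ^ 2)) volume a b :=
    ContinuousOn.intervalIntegrable_of_Icc hab hJc
  have hKi : IntervalIntegrable (fun t => Φ'' t / Φ' t ^ 2) volume a b :=
    ContinuousOn.intervalIntegrable_of_Icc hab hKc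
  have hsi := h.integrable_sq hab
  -- the two evaluations
  have hG : ∫ t in a..b, (Pool.Agent.L5helper4.ML.sq (Φ t) - T (Φ t) * (Φ'' t / Φ' t ^ 2)) =
      T (Φ b) * (Φ' b)⁻¹ - T (Φ a) * (Φ' a)⁻¹ := by
    refine integral_eq_of_hasDerivAt_off_countable_of_le (fun t => T (Φ t) * (Φ' t)⁻¹) _ hab hcount
      ?_ ?_ (hsi.sub hJi)
    · exact (T_cont.comp_continuousOn h.cont).mul (h.cont'.inv₀ hne)
    · rintro t ⟨ht, hts⟩
      have ht' : t ∈ Icc a b := Ioo_subset_Icc_self ht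
      have hint : ∀ n : ℤ, Φ t ≠ n := fun n hn => hts ⟨ht', n, hn⟩
      have hd := ((T_deriv hint).comp t (h.h1 t ht')).mul ((h.h2 t ht').inv (hne t ht'))
      refine hd.congr_deriv ?_
      have := hne t ht'
      simp only [Function.comp, Pi.inv_apply]
      field_simp
      ring
  have hW : ∫ t in a..b, (Φ'' t / Φ' t ^ 2) = -(Φ' b)⁻¹ - -(Φ' a)⁻¹ := by
    refine integral_eq_of_hasDerivAt_off_countable_of_le (fun t => -(Φ' t)⁻¹) _ hab
      Set.countable_empty (h.cont'.inv₀ hne).neg ?_ hKi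
    rintro t ⟨ht, _⟩
    have ht' : t ∈ Icc a b := Ioo_subset_Icc_self ht
    have hd := ((h.h2 t ht').inv (hne t ht')).neg
    refine hd.congr_deriv ?_
    ring
  rw [intervalIntegral.integral_sub hsi hJi] at hG
  have hJ0 : 0 ≤ ∫ t in a..b, T (Φ t) * (Φ'' t / Φ' t ^ 2) := by
    refine intervalIntegral.integral_nonneg hab fun t ht => ?_
    exact mul_nonneg (T_nonneg _) (div_nonneg (h.h4 t ht) (sq_nonneg _))
  have hJ1 : ∫ t in a..b, T (Φ t) * (Φ'' t / Φ' t ^ 2) ≤ ∫ t in a..b, (Φ'' t / Φ' t ^ 2) := by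
    refine intervalIntegral.integral_mono_on hab hJi hKi fun t ht => ?_
    exact mul_le_of_le_one_left (div_nonneg (h.h4 t ht) (sq_nonneg _)) (T_le _)
  have hwa : 0 < (Φ' a)⁻¹ := inv_pos.2 (h.h3 a ⟨le_rfl, hab⟩)
  have hwb : 0 < (Φ' b)⁻¹ := inv_pos.2 (h.h3 b ⟨hab, le_rfl⟩)
  have hb1 : T (Φ b) * (Φ' b)⁻¹ ≤ (Φ' b)⁻¹ := mul_le_of_le_one_left hwb.le (T_le _)
  have hb0 : 0 ≤ T (Φ b) * (Φ' b)⁻¹ := mul_nonneg (T_nonneg _) hwb.le
  have ha1 : T (Φ a) * (Φ' a)⁻¹ ≤ (Φ' a)⁻¹ := mul_le_of_le_one_left hwa.le (T_le _)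
  have ha0 : 0 ≤ T (Φ a) * (Φ' a)⁻¹ := mul_nonneg (T_nonneg _) hwa.le
  rw [one_div, abs_le]
  constructor <;> linarith

/-- splitting at the points of a finite set -/
lemma split (h : Phase Φ Φ' Φ'' a b) {g : ℝ → ℝ} (Z : Finset ℝ)
    (hgm : AEMeasurable g (volume.restrict (Icc a b))) (hg1 : ∀ t, |g t| ≤ 1)
    (hg : ∀ c d, a ≤ c → c < d → d ≤ b → (∀ z ∈ Z, ¬ (c < z ∧ z < d)) →
      ∃ k : ℝ, |k| ≤ 1 ∧ ∀ t ∈ Ioo c d, g t = k) :
    ∀ n : ℕ, ∀ c d, a ≤ c → c ≤ d → d ≤ b → (Z.filter fun z => c < z ∧ z < d).card = n →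
      |∫ t in c..d, g t * Pool.Agent.L5helper4.ML.sq (Φ t)| ≤ 1 / Φ' c + ∑ z ∈ Z.filter (fun z => c < z ∧ z < d), 1 / Φ' z := by
  classical
  intro n
  induction n using Nat.strong_induction_on with
  | _ n ih =>
    intro c d hac hcd hdb hn
    have hcab : c ∈ Icc a b := ⟨hac, hcd.trans hdb⟩
    have hwc : 0 < 1 / Φ' c := one_div_pos.2 (h.h3 c hcab)
    rcases hcd.eq_or_lt with rfl | hlt
    · rw [intervalIntegral.integral_same, abs_zero]
      refine add_nonneg hwc.le (Finset.sum_nonneg fun z hz => ?_)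
      rw [Finset.mem_filter] at hz
      exact absurd (hz.2.1.trans hz.2.2) (lt_irrefl _)
    rcases (Z.filter fun z => c < z ∧ z < d).eq_empty_or_nonempty with he | hne
    · -- no point inside
      rw [he, Finset.sum_empty, add_zero]
      obtain ⟨k, hk, hgk⟩ := hg c d hac hlt hdb (fun z hz hzc => by
        have : z ∈ Z.filter fun z => c < z ∧ z < d := Finset.mem_filter.2 ⟨hz, hzc⟩
        rw [he] at this
        simp at this)
      have h1 : ∫ t in c..d, g t * Pool.Agent.L5helper4.ML.sq (Φ t) = k * ∫ t in c..d, Pool.Agent.L5helper4.ML.sq (Φ t) := by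
        rw [← intervalIntegral.integral_const_mul, intervalIntegral.integral_of_le hcd,
          intervalIntegral.integral_of_le hcd, integral_Ioc_eq_integral_Ioo,
          integral_Ioc_eq_integral_Ioo]
        refine setIntegral_congr_fun measurableSet_Ioo fun t ht => ?_
        show g t * Pool.Agent.L5helper4.ML.sq (Φ t) = k * Pool.Agent.L5helper4.ML.sq (Φ t)
        rw [hgk t ht]
      rw [h1, abs_mul]
      have h2 := (h.mono hac hdb).single hcd
      calc |k| * |∫ t in c..d, Pool.Agent.L5helper4.ML.sq (Φ t)| ≤ 1 * |∫ t in c..d, Pool.Agent.L5helper4.ML.sq (Φ t)| :=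
            mul_le_mul_of_nonneg_right hk (abs_nonneg _)
        _ ≤ _ := by rw [one_mul]; exact h2
    · obtain ⟨z, hz⟩ := hne
      have hz' := Finset.mem_filter.1 hz
      obtain ⟨hzZ, hcz, hzd⟩ := hz'
      have hint : ∀ x y, a ≤ x → x ≤ y → y ≤ b →
          IntervalIntegrable (fun t => g t * Pool.Agent.L5helper4.ML.sq (Φ t)) volume x y := by
        intro x y hx hxy hy
        rw [intervalIntegrable_iff_integrableOn_Icc_of_le hxy]
        have hsub : Icc x y ⊆ Icc a b := Icc_subset_Icc hx hy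
        refine Integrable.mono' (g := fun _ => (1 : ℝ)) (by simp)
          ((hgm.mul h.measurable_sq).mono_measure
            (Measure.restrict_mono_set _ hsub)).aestronglyMeasurable ?_
        refine Eventually.of_forall fun t => ?_
        rw [norm_mul, Real.norm_eq_abs, Real.norm_eq_abs]
        rcases sq_or (Φ t) with h | h <;> rw [h] <;> simpa using hg1 t
      have hsplit : ∫ t in c..d, g t * Pool.Agent.L5helper4.ML.sq (Φ t) =
          (∫ t in c..z, g t * Pool.Agent.L5helper4.ML.sq (Φ t)) + ∫ t in z..d, g t * Pool.Agent.L5helper4.ML.sq (Φ t) :=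
        (intervalIntegral.integral_add_adjacent_intervals (hint c z hac hcz.le (hzd.le.trans hdb))
          (hint z d (hac.trans hcz.le) hzd.le hdb)).symm
      have hl : ((Z.filter fun w => c < w ∧ w < z)).card < n := by
        rw [← hn]
        refine Finset.card_lt_card ?_
        rw [Finset.ssubset_iff_of_subset]
        · exact ⟨z, hz, by simp⟩
        · intro w hw
          rw [Finset.mem_filter] at hw ⊢
          exact ⟨hw.1, hw.2.1, hw.2.2.trans hzd⟩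
      have hr : ((Z.filter fun w => z < w ∧ w < d)).card < n := by
        rw [← hn]
        refine Finset.card_lt_card ?_
        rw [Finset.ssubset_iff_of_subset]
        · exact ⟨z, hz, by simp⟩
        · intro w hw
          rw [Finset.mem_filter] at hw ⊢
          exact ⟨hw.1, hcz.trans hw.2.1, hw.2.2⟩
      have h1 := ih _ hl c z hac hcz.le (hzd.le.trans hdb) rfl
      have h2 := ih _ hr z d (hac.trans hcz.le) hzd.le hdb rfl
      have h3 : ∑ w ∈ Z.filter (fun w => c < w ∧ w < d), 1 / Φ' w =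
          (∑ w ∈ Z.filter (fun w => c < w ∧ w < z), 1 / Φ' w) + 1 / Φ' z +
            ∑ w ∈ Z.filter (fun w => z < w ∧ w < d), 1 / Φ' w := by
        have hd1 : Disjoint (Z.filter fun w => c < w ∧ w < z) {z} := by
          rw [Finset.disjoint_singleton_right]
          simp
        have hd2 : Disjoint ((Z.filter fun w => c < w ∧ w < z) ∪ {z})
            (Z.filter fun w => z < w ∧ w < d) := by
          rw [Finset.disjoint_left]
          intro w hw hw'
          rw [Finset.mem_filter] at hw'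
          rw [Finset.mem_union, Finset.mem_filter, Finset.mem_singleton] at hw
          rcases hw with hw | hw
          · exact lt_irrefl _ (hw.2.2.trans hw'.2.1)
          · exact absurd hw'.2.1 (by rw [hw]; exact lt_irrefl _)
        have hu : Z.filter (fun w => c < w ∧ w < d) =
            ((Z.filter fun w => c < w ∧ w < z) ∪ {z}) ∪ (Z.filter fun w => z < w ∧ w < d) := by
          ext w
          simp only [Finset.mem_filter, Finset.mem_union, Finset.mem_singleton]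
          constructor
          · rintro ⟨hw, hw1, hw2⟩
            rcases lt_trichotomy w z with h | h | h
            · exact Or.inl (Or.inl ⟨hw, hw1, h⟩)
            · exact Or.inl (Or.inr h)
            · exact Or.inr ⟨hw, h, hw2⟩
          · rintro ((⟨hw, hw1, hw2⟩ | rfl) | ⟨hw, hw1, hw2⟩)
            · exact ⟨hw, hw1, hw2.trans hzd⟩
            · exact ⟨hzZ, hcz, hzd⟩
            · exact ⟨hw, hcz.trans hw1, hw2⟩
        rw [hu, Finset.sum_union hd2, Finset.sum_union hd1, Finset.sum_singleton]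
      rw [hsplit, h3]
      refine (abs_add_le _ _).trans ?_
      linarith

/-- the floor of the phase is constant where the phase is not an integer -/
lemma floor_const (h : Phase Φ Φ' Φ'' a b) {c d : ℝ} (hac : a ≤ c) (hdb : d ≤ b)
    (hn : ∀ t ∈ Ioo c d, ∀ n : ℤ, Φ t ≠ n) : ∀ s ∈ Ioo c d, ∀ t ∈ Ioo c d, Pool.Agent.L5helper4.ML.sq (Φ s) = Pool.Agent.L5helper4.ML.sq (Φ t) := by
  have key : ∀ s ∈ Ioo c d, ∀ t ∈ Ioo c d, s < t → ⌊Φ s⌋ = ⌊Φ t⌋ := by
    intro s hs t ht hst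
    have hs' : s ∈ Icc a b := ⟨hac.trans hs.1.le, hs.2.le.trans hdb⟩
    have ht' : t ∈ Icc a b := ⟨hac.trans ht.1.le, ht.2.le.trans hdb⟩
    have hmono := h.strict s hs' t ht' hst
    by_contra hne
    have hle : ⌊Φ s⌋ ≤ ⌊Φ t⌋ := Int.floor_le_floor hmono.le
    have hlt : ⌊Φ s⌋ < ⌊Φ t⌋ := lt_of_le_of_ne hle hne
    have h1 : Φ s < ⌊Φ t⌋ := Int.floor_lt.1 hlt
    have h2 : (⌊Φ t⌋ : ℝ) ≤ Φ t := Int.floor_le _
    have hsub : Icc s t ⊆ Icc a b := Icc_subset_Icc hs'.1 ht'.2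
    obtain ⟨x, hx, hxe⟩ := intermediate_value_Icc hst.le (h.cont.mono hsub) ⟨h1.le, h2⟩
    exact hn x ⟨hs.1.trans_le hx.1, hx.2.trans_lt ht.2⟩ _ hxe
  intro s hs t ht
  unfold Pool.Agent.L5helper4.ML.sq
  rcases lt_trichotomy s t with h1 | h1 | h1
  · rw [key s hs t ht h1]
  · rw [h1]
  · rw [key t ht s hs h1]

/-- the points where the phase is an integer form a finite set -/
lemma finite_int (h : Phase Φ Φ' Φ'' a b) (hab : a ≤ b) :
    {t : ℝ | t ∈ Icc a b ∧ ∃ n : ℤ, Φ t = n}.Finite := by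
  refine Set.Finite.of_finite_image (f := Φ) ?_ ?_
  · refine Set.Finite.subset (s := ((↑) : ℤ → ℝ) '' (Set.Icc ⌊Φ a⌋ ⌈Φ b⌉))
      ((Set.finite_Icc _ _).image _) ?_
    rintro y ⟨t, ⟨ht, n, hn⟩, rfl⟩
    refine ⟨n, ?_, hn.symm⟩
    have h1 : Φ a ≤ Φ t := by
      rcases ht.1.eq_or_lt with h1 | h1
      · rw [h1]
      · exact (h.strict a ⟨le_rfl, hab⟩ t ht h1).le
    have h2 : Φ t ≤ Φ b := by
      rcases ht.2.eq_or_lt with h1 | h1
      · rw [h1]
      · exact (h.strict t ht b ⟨hab, le_rfl⟩ h1).le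
    rw [hn] at h1 h2
    constructor
    · have := (Int.floor_le (Φ a)).trans h1
      exact_mod_cast this
    · have := h2.trans (Int.le_ceil (Φ b))
      exact_mod_cast this
  · rintro x ⟨hx, _⟩ y ⟨hy, _⟩ hxy
    rcases lt_trichotomy x y with h1 | h1 | h1
    · exact absurd hxy (h.strict x hx y hy h1).ne
    · exact h1
    · exact absurd hxy (h.strict y hy x hx h1).ne'

lemma sep_int (h : Phase Φ Φ' Φ'' a b) {x y : ℝ} (hx : x ∈ Icc a b) (hy : y ∈ Icc a b) (hxy : x < y)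
    (hx' : ∃ n : ℤ, Φ x = n) (hy' : ∃ n : ℤ, Φ y = n) : 1 ≤ Φ y - Φ x := by
  obtain ⟨m, hm⟩ := hx'
  obtain ⟨n, hn⟩ := hy'
  have h1 := h.strict x hx y hy hxy
  rw [hm, hn] at h1 ⊢
  have h2 : m < n := by exact_mod_cast h1
  have h3 : m + 1 ≤ n := h2
  have h4 : (m : ℝ) + 1 ≤ n := by exact_mod_cast h3
  linarith

end Phase

lemma sum_biUnion_le' (O : Finset ℕ) (Zq : ℕ → Finset ℝ) (f : ℝ → ℝ)
    (hf : ∀ q ∈ O, ∀ z ∈ Zq q, 0 ≤ f z) :
    ∑ z ∈ O.biUnion Zq, f z ≤ ∑ q ∈ O, ∑ z ∈ Zq q, f z := by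
  classical
  induction O using Finset.induction_on with
  | empty => simp
  | insert q s hq ih =>
    rw [Finset.biUnion_insert, Finset.sum_insert hq]
    have h1 := Finset.sum_union_inter (s₁ := Zq q) (s₂ := s.biUnion Zq) (f := f)
    have h2 : 0 ≤ ∑ z ∈ Zq q ∩ s.biUnion Zq, f z :=
      Finset.sum_nonneg fun z hz => hf q (Finset.mem_insert_self _ _) z (Finset.mem_inter.1 hz).1
    have h3 := ih fun q' hq' => hf q' (Finset.mem_insert_of_mem hq')
    linarith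

/-- TASK A -/
theorem qi_convex (Φ Φ' Φ'' : ℕ → ℝ → ℝ) (u v C₀ κ : ℝ) (huv : u ≤ v) (hκ : 0 < κ) (hC₀ : 0 < C₀)
    (h1 : ∀ p : ℕ, p.Prime → ∀ t ∈ Set.Icc u v, HasDerivAt (Φ p) (Φ' p t) t)
    (h2 : ∀ p : ℕ, p.Prime → ∀ t ∈ Set.Icc u v, HasDerivAt (Φ' p) (Φ'' p t) t)
    (h3 : ∀ p : ℕ, p.Prime → ∀ t ∈ Set.Icc u v, 0 < Φ' p t)
    (h4 : ∀ p : ℕ, p.Prime → ∀ t ∈ Set.Icc u v, 0 ≤ Φ'' p t)
    (h4' : ∀ p : ℕ, p.Prime → ContinuousOn (Φ'' p) (Set.Icc u v))
    (h5 : ∀ p q : ℕ, p.Prime → q.Prime → q < p → ∀ t ∈ Set.Icc u v,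
      Φ' q t ≤ C₀ * ((q : ℝ) / p) ^ κ * Φ' p t) :
    ∃ C : ℝ, QI (fun p t => Pool.Agent.L5helper4.ML.sq (Φ p t)) u v C κ := by
  classical
  have hP : ∀ p : ℕ, p.Prime → Phase (Φ p) (Φ' p) (Φ'' p) u v := fun p hp =>
    ⟨h1 p hp, h2 p hp, h3 p hp, h4 p hp, h4' p hp⟩
  have hu : u ∈ Icc u v := ⟨le_rfl, huv⟩
  set w₂ : ℝ := 1 / Φ' 2 u with hw₂
  have hw₂pos : 0 < w₂ := one_div_pos.2 (h3 2 Nat.prime_two u hu)
  -- the comparison of the weights
  have hcmp : ∀ p q : ℕ, p.Prime → q.Prime → q < p → ∀ t ∈ Icc u v,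
      1 / Φ' p t ≤ C₀ * ((q : ℝ) / p) ^ κ * (1 / Φ' q t) := by
    intro p q hp hq hqp t ht
    have a1 := h3 p hp t ht
    have a2 := h3 q hq t ht
    have a3 := h5 p q hp hq hqp t ht
    rw [mul_one_div, div_le_div_iff₀ a1 a2, one_mul]
    exact a3
  have hfirst : ∀ p : ℕ, p.Prime → ∀ ρ : ℝ, 1 / (p : ℝ) ≤ ρ →
      1 / Φ' p u ≤ (1 + C₀) * w₂ * (2 ^ κ * ρ ^ κ) := by
    intro p hp ρ hρ
    have hp0 : (0 : ℝ) < p := by exact_mod_cast hp.pos
    have hρ0 : 0 < ρ := lt_of_lt_of_le (by positivity) hρ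
    rcases hp.two_le.eq_or_lt with rfl | hlt
    · have h6 : (1 : ℝ) ≤ (2 * ρ) ^ κ := by
        refine Real.one_le_rpow ?_ hκ.le
        have : (1 : ℝ) / ((2 : ℕ) : ℝ) ≤ ρ := hρ
        push_cast at this
        linarith
      rw [← Real.mul_rpow (by norm_num) hρ0.le]
      calc 1 / Φ' 2 u = w₂ * 1 := by rw [hw₂, mul_one]
        _ ≤ ((1 + C₀) * w₂) * (2 * ρ) ^ κ := by
            refine mul_le_mul ?_ h6 (by norm_num) (by positivity)
            nlinarith
    · have h6 := hcmp p 2 hp Nat.prime_two hlt u hu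
      have h7 : (((2 : ℕ) : ℝ) / p) ^ κ ≤ (2 * ρ) ^ κ := by
        refine Real.rpow_le_rpow (by positivity) ?_ hκ.le
        have : (2 : ℝ) / p = 2 * (1 / p) := by ring
        push_cast
        rw [this]
        linarith
      rw [← Real.mul_rpow (by norm_num) hρ0.le]
      calc 1 / Φ' p u ≤ C₀ * (((2 : ℕ) : ℝ) / p) ^ κ * w₂ := h6
        _ ≤ C₀ * (2 * ρ) ^ κ * w₂ := by
            refine mul_le_mul_of_nonneg_right (mul_le_mul_of_nonneg_left h7 hC₀.le) hw₂pos.le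
        _ ≤ (1 + C₀) * w₂ * (2 * ρ) ^ κ := by
            have : 0 ≤ w₂ * (2 * ρ) ^ κ := by positivity
            nlinarith
  have hB : ∀ q : ℕ, q.Prime → 1 / Φ' q u ≤ (1 + C₀) * w₂ * 2 ^ κ := by
    intro q hq
    have h6 := hfirst q hq 1 (by
      rw [div_le_one (by exact_mod_cast hq.pos)]
      exact_mod_cast hq.one_lt.le)
    rw [Real.one_rpow, mul_one] at h6
    exact h6
  set B : ℝ := (1 + C₀) * w₂ * 2 ^ κ with hBdef
  have hBpos : 0 < B := by positivity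
  refine ⟨B + C₀ * ((v - u) + B), ?_⟩
  intro p hp O hO ρ hρ hOρ
  have hp0 : (0 : ℝ) < p := by exact_mod_cast hp.pos
  have hρ0 : 0 < ρ := lt_of_lt_of_le (by positivity) hρ
  have hρκ : 0 < ρ ^ κ := Real.rpow_pos_of_pos hρ0 κ
  -- the integer points of the phases in `O`
  let Zq : ℕ → Finset ℝ := fun q =>
    if hq : q.Prime then ((hP q hq).finite_int huv).toFinset else ∅
  have hZq : ∀ q : ℕ, q.Prime → ∀ t, t ∈ Zq q ↔ (t ∈ Icc u v ∧ ∃ n : ℤ, Φ q t = n) := by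
    intro q hq t
    simp only [Zq, dif_pos hq, Set.Finite.mem_toFinset]
    rfl
  set Z : Finset ℝ := O.biUnion Zq with hZ
  have hgm : AEMeasurable (fun t => ∏ q ∈ O, Pool.Agent.L5helper4.ML.sq (Φ q t)) (volume.restrict (Icc u v)) := by
    refine Finset.aemeasurable_fun_prod O fun q hq => ?_
    exact (hP q (hO q hq).1).measurable_sq
  have hg1 : ∀ t, |∏ q ∈ O, Pool.Agent.L5helper4.ML.sq (Φ q t)| ≤ 1 := by
    intro t
    rw [Finset.abs_prod]
    refine Finset.prod_le_one (fun _ _ => abs_nonneg _) fun q _ => ?_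
    rcases sq_or (Φ q t) with h | h <;> rw [h] <;> simp
  have hgc : ∀ c d, u ≤ c → c < d → d ≤ v → (∀ z ∈ Z, ¬ (c < z ∧ z < d)) →
      ∃ k : ℝ, |k| ≤ 1 ∧ ∀ t ∈ Ioo c d, (∏ q ∈ O, Pool.Agent.L5helper4.ML.sq (Φ q t)) = k := by
    intro c d hc hcd hd hz
    obtain ⟨s, hs⟩ := exists_between hcd
    refine ⟨∏ q ∈ O, Pool.Agent.L5helper4.ML.sq (Φ q s), hg1 s, fun t ht => ?_⟩
    refine Finset.prod_congr rfl fun q hq => ?_
    have hqp := (hO q hq).1
    refine (hP q hqp).floor_const hc hd ?_ t ht s ⟨hs.1, hs.2⟩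
    intro x hx n hn
    refine hz x ?_ hx
    rw [hZ, Finset.mem_biUnion]
    exact ⟨q, hq, (hZq q hqp x).2 ⟨⟨hc.trans hx.1.le, hx.2.le.trans hd⟩, n, hn⟩⟩
  have hmain := (hP p hp).split Z hgm hg1 hgc _ u v le_rfl huv le_rfl rfl
  have hsum : ∑ z ∈ Z.filter (fun z => u < z ∧ z < v), 1 / Φ' p z ≤
      O.card * (C₀ * ((v - u) + B) * ρ ^ κ) := by
    have hpos : ∀ z ∈ Z, 0 ≤ 1 / Φ' p z := by
      intro z hz
      rw [hZ, Finset.mem_biUnion] at hz
      obtain ⟨q, hq, hz⟩ := hz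
      have := (hZq q (hO q hq).1 z).1 hz
      exact (one_div_pos.2 (h3 p hp z this.1)).le
    calc ∑ z ∈ Z.filter (fun z => u < z ∧ z < v), 1 / Φ' p z
        ≤ ∑ z ∈ Z, 1 / Φ' p z :=
          Finset.sum_le_sum_of_subset_of_nonneg (Finset.filter_subset _ _)
            fun z hz _ => hpos z hz
      _ ≤ ∑ q ∈ O, ∑ z ∈ Zq q, 1 / Φ' p z := by
          refine sum_biUnion_le' O Zq _ fun q hq z hz => hpos z ?_
          rw [hZ, Finset.mem_biUnion]
          exact ⟨q, hq, hz⟩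
      _ ≤ ∑ _q ∈ O, (C₀ * ((v - u) + B) * ρ ^ κ) := by
          refine Finset.sum_le_sum fun q hq => ?_
          obtain ⟨hqp, hqlt⟩ := hO q hq
          have h6 : ∑ z ∈ Zq q, 1 / Φ' q z ≤ (v - u) + 1 / Φ' q u := by
            refine (hP q hqp).sum_sep (Zq q) (fun z hz => ((hZq q hqp z).1 hz).1) ?_ v
              (fun z hz => ((hZq q hqp z).1 hz).1.2) huv huv
            intro z hz z' hz' hzz
            have a1 := (hZq q hqp z).1 hz
            have a2 := (hZq q hqp z').1 hz'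
            exact (hP q hqp).sep_int a1.1 a2.1 hzz a1.2 a2.2
          have hq0 : (0 : ℝ) < q := by exact_mod_cast hqp.pos
          have h7 : ((q : ℝ) / p) ^ κ ≤ ρ ^ κ := by
            refine Real.rpow_le_rpow (by positivity) ?_ hκ.le
            rw [div_le_iff₀ hp0]
            exact hOρ q hq
          have h8 := hB q hqp
          calc ∑ z ∈ Zq q, 1 / Φ' p z
              ≤ ∑ z ∈ Zq q, C₀ * ((q : ℝ) / p) ^ κ * (1 / Φ' q z) :=
                Finset.sum_le_sum fun z hz =>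
                  hcmp p q hp hqp hqlt z ((hZq q hqp z).1 hz).1
            _ = C₀ * ((q : ℝ) / p) ^ κ * ∑ z ∈ Zq q, (1 / Φ' q z) := by rw [Finset.mul_sum]
            _ ≤ C₀ * ρ ^ κ * ((v - u) + B) := by
                refine mul_le_mul (mul_le_mul_of_nonneg_left h7 hC₀.le) (by linarith) ?_
                  (by positivity)
                refine Finset.sum_nonneg fun z hz => ?_
                exact (one_div_pos.2 (h3 q hqp z ((hZq q hqp z).1 hz).1)).le
            _ = C₀ * ((v - u) + B) * ρ ^ κ := by ring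
      _ = O.card * (C₀ * ((v - u) + B) * ρ ^ κ) := by rw [Finset.sum_const, nsmul_eq_mul]
  have h9 := hfirst p hp ρ hρ
  have h10 : (1 + C₀) * w₂ * (2 ^ κ * ρ ^ κ) = B * ρ ^ κ := by rw [hBdef]; ring
  rw [h10] at h9
  have hvu : 0 ≤ v - u := sub_nonneg.2 huv
  have h11 : (0 : ℝ) ≤ O.card := Nat.cast_nonneg _
  calc |∫ t in u..v, (∏ q ∈ O, Pool.Agent.L5helper4.ML.sq (Φ q t)) * Pool.Agent.L5helper4.ML.sq (Φ p t)|
      ≤ B * ρ ^ κ + O.card * (C₀ * ((v - u) + B) * ρ ^ κ) := hmain.trans (add_le_add h9 hsum)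
    _ ≤ (B + C₀ * ((v - u) + B)) * (1 + O.card) * ρ ^ κ := by
        have e1 : 0 ≤ B * ρ ^ κ * O.card := by positivity
        have e2 : 0 ≤ C₀ * ((v - u) + B) * ρ ^ κ := by positivity
        nlinarith

end Pool.Agent.L5helper67.MLQ
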